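import Mathlib
import Pool.Agent.U115.XP.Dens

/-!
# `Ш[2^∞] = 0` for exactly `41.9...` percent of a family of quadratic twists of `X_0(14)`

`E_D : y² = x³ + 13 D x² + 128 D² x` is the quadratic twist by `D` of the modular curve
`X_0(14) : y² + x y + y = x³ + 4 x - 6`, an elliptic curve without complex multiplication with one
rational point of order two. `D` runs over the squarefree numbers `≡ 1 mod 8` with all prime factors
`p ≠ 3` completely split in `ℚ(√-1, √2, √-7)` (`p = 1 mod 8`, `p` a square modulo `7`) or inert both in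
`ℚ(√2)` and in `ℚ(√-7)` (`p = 3, 5 mod 8`, `p` not a square modulo `7`); the number of the prime
factors of each kind is arbitrary.

* `E_D(ℚ)` is finite and `Ш(E_D/ℚ)[2^∞] = 0` if and only if the matrix `mat D` over the field with two
  elements is not singular. Its rows and columns are indexed by the split prime factors of `D`; the
  entries are the quadratic residue symbols between the prime factors of `D`, and the diagonal has the
  symbols of the inert prime factors and the quadratic character of the roots of `x² + 13 x + 128`.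
* In general, with `s` the dimension of the kernel of the matrix, `2 ^ rank * #Ш[2] ≤ 4 ^ s`, and if
  `E_D(ℚ)` is finite then `#Ш[2] ≥ 2 ^ s`.
* The proportion of the `D` of the class, ordered by size, such that `E_D(ℚ)` is finite and
  `Ш(E_D/ℚ)[2^∞] = 0` tends exactly to `∏_{i ≥ 0} (1 - 2^{-(2i+1)}) = 0.4194...`.

Proof: the two descents by the isogenies of degree two, for any number of split primes
(`Pool/Agent/U115/XP/Sel`), the converse by everywhere locally soluble coverings
(`Pool/Agent/U115/XP/LocI`, `Conv`, with `Pool/Agent/Y698/SG/Eba` of the starting library), the theorem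
of Mordell and Weil, and the distribution of the matrices, which is the theorem of the project
`Pool/Agent/Y703/CQ` of the starting library for an arbitrary function on the diagonal.
-/

set_option autoImplicit false

open scoped Classical

namespace Pool.Agent.U115.Old.ExactProportionX14

open Pool.Agent.TH841.NF.D (Sha rk)

/-- the quadratic twist by `D` of `y² = x³ + 13 x² + 128 x` -/
def E (D : ℕ) : WeierstrassCurve ℚ := ⟨0, 13 * (D : ℚ), 0, 128 * (D : ℚ) ^ 2, 0⟩

/-- the class of the numbers `D` -/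
def Class (D : ℕ) : Prop := Squarefree D ∧ D % 8 = 1 ∧ ∀ p ∈ D.primeFactors,
  (p % 8 = 1 ∧ (p % 7 = 1 ∨ p % 7 = 2 ∨ p % 7 = 4)) ∨
    (p ≠ 3 ∧ (p % 8 = 3 ∨ p % 8 = 5) ∧ (p % 7 = 3 ∨ p % 7 = 5 ∨ p % 7 = 6))

/-- the split prime factors of `D` -/
noncomputable def split (D : ℕ) : Finset ℕ := D.primeFactors.filter fun p => p % 8 = 1

/-- `1` if `m` is not a square modulo `p`, and `0` if it is -/
noncomputable def nonsq (p m : ℕ) : ZMod 2 := if IsSquare (m : ZMod p) then 0 else 1

/-- `1` if no root of `x² + 13 x + 128` modulo `p` is a square modulo `p`, and `0` otherwise -/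
noncomputable def theta (p : ℕ) : ZMod 2 :=
  if ∀ x : ZMod p, x ^ 2 + 13 * x + 128 = 0 → ¬ IsSquare x then 1 else 0

/-- The matrix over the field with two elements, with rows and columns indexed by the split prime
factors of `D`: the entry at `(i, j)` is `nonsq i j` for `i ≠ j`, and the entry at `(i, i)` is the sum
of `theta i` and of the `nonsq i l` for all the prime factors `l ≠ i` of `D`. -/
noncomputable def mat (D : ℕ) : Matrix (split D) (split D) (ZMod 2) := Matrix.of fun i j =>
  if i = j then theta i + ∑ l ∈ D.primeFactors.erase i, nonsq i l else nonsq i j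

/-- the dimension of the kernel of the matrix -/
noncomputable def s (D : ℕ) : ℕ := (split D).card - (mat D).rank

/-- `E_D(ℚ)` is finite and `Ш(E_D/ℚ)[2^∞] = 0` -/
def TrivialTwo (D : ℕ) : Prop :=
  Finite (E D).toAffine.Point ∧ ∀ (n : ℕ) (x : Sha (E D)), 2 ^ n • x = 0 → x = 0

theorem theta_eq (p : ℕ) : theta p = Pool.Agent.U115.XP.theta p := by
  unfold theta Pool.Agent.U115.XP.theta Pool.Agent.Y687.Rt
  simp only [Nat.cast_one, mul_one, one_pow]

theorem mat_eq {D : ℕ} : mat D =
    Pool.Agent.U115.XP.matF Pool.Agent.U115.XP.theta (Pool.Agent.U115.XP.ine D)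
      (Pool.Agent.U115.XP.spl D) := by
  ext i j
  have hL : mat D i j = if i = j then theta i + ∑ l ∈ D.primeFactors.erase i, nonsq i l
    else nonsq i j := rfl
  have hR : Pool.Agent.U115.XP.matF Pool.Agent.U115.XP.theta (Pool.Agent.U115.XP.ine D)
      (Pool.Agent.U115.XP.spl D) i j = if (i : ℕ) = j then Pool.Agent.U115.XP.theta i +
        ∑ q ∈ Pool.Agent.U115.XP.ine D, Pool.Agent.Y698.SG.nq i q +
        ∑ p ∈ (Pool.Agent.U115.XP.spl D).erase i, Pool.Agent.Y698.SG.nq i p
      else Pool.Agent.Y698.SG.nq i j := rfl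
  rw [hL, hR]
  by_cases hij : i = j
  · rw [if_pos hij, if_pos (congrArg Subtype.val hij), theta_eq]
    have h1 : D.primeFactors.erase i =
        Pool.Agent.U115.XP.ine D ∪ (Pool.Agent.U115.XP.spl D).erase i := by
      have h2 : D.primeFactors = Pool.Agent.U115.XP.ine D ∪ Pool.Agent.U115.XP.spl D := by
        unfold Pool.Agent.U115.XP.ine Pool.Agent.U115.XP.spl
        rw [Finset.union_comm]
        exact (Finset.filter_union_filter_not_eq _ _).symm
      conv_lhs => rw [h2]
      rw [Finset.erase_union_distrib, Finset.erase_eq_of_notMem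
        (fun h => Finset.disjoint_left.1 (Pool.Agent.U115.XP.spl_ine D) h i.2)]
    rw [h1, Finset.sum_union (Finset.disjoint_of_subset_right (Finset.erase_subset _ _)
      (Pool.Agent.U115.XP.spl_ine D)), ← add_assoc]
    rfl
  · rw [if_neg hij, if_neg (fun h => hij (Subtype.ext h))]
    rfl

theorem s_eq (D : ℕ) : s D = (Pool.Agent.U115.XP.spl D).card -
    (Pool.Agent.U115.XP.matF Pool.Agent.U115.XP.theta (Pool.Agent.U115.XP.ine D)
      (Pool.Agent.U115.XP.spl D)).rank := by
  unfold s
  rw [mat_eq]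
  rfl

/-- **`Ш[2^∞]` of the quadratic twists of `X_0(14)`.** -/
theorem result :
    -- the curve `E 1` is `X_0(14)`
    (∃ C : WeierstrassCurve.VariableChange ℚ, C • (⟨1, 0, 1, 4, -6⟩ : WeierstrassCurve ℚ) = E 1) ∧
    (∀ D : ℕ, Class D →
      (TrivialTwo D ↔ (mat D).det ≠ 0) ∧
      Finite {x : Sha (E D) // 2 • x = 0} ∧
      2 ^ rk (E D) * Nat.card {x : Sha (E D) // 2 • x = 0} ≤ 4 ^ s D ∧
      (Finite (E D).toAffine.Point → 2 ^ s D ≤ Nat.card {x : Sha (E D) // 2 • x = 0})) ∧
    Filter.Tendsto (fun X : ℕ =>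
        (((Finset.Icc 1 X).filter fun D => Class D ∧ TrivialTwo D).card : ℝ) /
        (((Finset.Icc 1 X).filter fun D => Class D).card : ℝ)) Filter.atTop
      (nhds (∏' i : ℕ, (1 - (1 / 2 : ℝ) ^ (2 * i + 1)))) ∧
    0.4194 < ∏' i : ℕ, (1 - (1 / 2 : ℝ) ^ (2 * i + 1)) ∧
    ∏' i : ℕ, (1 - (1 / 2 : ℝ) ^ (2 * i + 1)) < 0.4195 := by
  have key : ∀ D : ℕ, Class D → (TrivialTwo D ↔
      Pool.Agent.U115.XP.kap (∏ q ∈ Pool.Agent.U115.XP.ine D, q) (Pool.Agent.U115.XP.spl D) = 1) :=
    fun D h => (Pool.Agent.U115.XP.class_hb h).iff (Pool.Agent.U115.XP.prod_eq h.1)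
  refine ⟨⟨Pool.Agent.Y31.XF.CV 0, ?_⟩, fun D h => ?_, ?_, ?_⟩
  · have h := Pool.Agent.Y31.XF.cv_eq 0
    have e1 : ((⟨1, 0, 1, 72 * 0 ^ 2 + 36 * 0 + 4, -(368 * 0 ^ 3 + 276 * 0 ^ 2 + 69 * 0 + 6)⟩ :
        WeierstrassCurve ℤ).map (Int.castRingHom ℚ)) = (⟨1, 0, 1, 4, -6⟩ : WeierstrassCurve ℚ) := by
      unfold WeierstrassCurve.map
      norm_num
    rw [e1] at h
    rw [h]
    unfold Pool.Agent.Y682.wc E
    norm_num
  · have hb := Pool.Agent.U115.XP.class_hb h
    have hk := Pool.Agent.U115.XP.class_kap h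
    obtain ⟨h1, h2⟩ := hb.bound (Pool.Agent.U115.XP.prod_eq h.1)
    refine ⟨?_, h1, ?_, fun hf => ?_⟩
    · rw [key D h, hk, Pool.Agent.U115.XP.kap_one, mat_eq]
      exact Iff.rfl
    · rw [hk, ← s_eq, ← pow_mul, mul_comm (s D) 2, pow_mul] at h2
      exact h2
    · have h3 := hb.conv (Pool.Agent.U115.XP.prod_eq h.1) hf
      rw [hk, ← s_eq] at h3
      exact h3
  · refine Pool.Agent.U115.XP.dens.congr fun X => congrArg₂ (fun a b : ℕ => (a : ℝ) / (b : ℝ)) ?_ ?_
    · refine congrArg Finset.card (Finset.ext fun D => ?_)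
      rw [Finset.mem_filter, Finset.mem_filter]
      exact and_congr_right fun _ => and_congr_right fun h => (key D h).symm
    · rfl
  · obtain ⟨-, -, -, h1, h2⟩ := Pool.Agent.Y948.CQ.t_C2
    exact ⟨h1, h2⟩

end Pool.Agent.U115.Old.ExactProportionX14
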